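import Pool.Agent.helper19.FR.Spec

/-! Row fr:CSY (MP_bf63dc_nt): symmetry of the correlations. -/

set_option autoImplicit false

namespace Pool.Agent.FR

open Finset Real Pool.Agent.AT Pool.Agent.OM Pool.Agent.helper85.FC

theorem CSY_comm {α β : Type} [Fintype α] [Fintype β] (f : α → β → ℝ) :
    mean (fun a => mean fun b => f a b) = mean (fun b => mean fun a => f a b) := by
  unfold mean
  rw [← Finset.sum_div, ← Finset.sum_div, Finset.sum_comm, div_right_comm]

theorem CSY : CSY_stmt := by
  intro ι _ _ H X j i i' Q
  unfold corr
  refine congrArg mean (funext fun ξ => ?_)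
  rw [CSY_comm]
  refine congrArg mean (funext fun m => congrArg mean (funext fun m' => ?_))
  ring

end Pool.Agent.FR
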